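import Pool.Agent.H46.Ms.Main

set_option autoImplicit false

open Pool.Agent.H46.Ms

/-- A Hecke-Maass cusp form of level 25 with trivial character all of whose twists by primitive
quadratic Dirichlet characters have vanishing central value. -/
theorem Pool.Agent.Results.MP_17f4cb_nt.MaassTwists.result :
    ∃ (t : ℝ) (U : ℂ → ℂ) (lam : ℕ → ℂ), IsMaass 25 t U lam ∧
      ∀ (q : ℕ) (χ : DirichletCharacter ℂ q), q ≠ 0 → χ.IsPrimitive → χ.IsQuadratic →
        ∃ L : ℂ → ℂ, IsTwistL 25 lam χ L ∧ L (1 / 2) = 0 :=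
  ⟨tt, UU, aa, isMaass, fun _ χ hq => vanish hq χ⟩
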